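import Mathlib
import Pool.Agent.H.MP_71c9ee_al.Defs
import Pool.Agent.Lib.helper9.BorsukUlam

set_option autoImplicit false

namespace Pool.Agent.H.MP_71c9ee_al

open Function

lemma move_lift {H G : Type} [Group H] [Group G] {k : ℕ} (φ : H →* G) (hφ : Surjective φ)
    {W : Fin k → H} {V : Fin k → G} (h : ACMove (φ ∘ W) V) : ∃ W', ACMove W W' ∧ φ ∘ W' = V := by
  obtain ⟨i, ⟨j, ij, rfl | rfl | rfl | rfl⟩ | rfl | ⟨w, rfl⟩⟩ := h
  · exact ⟨_, ⟨i, .inl ⟨j, ij, .inl rfl⟩⟩, by simp [comp_update]⟩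
  · exact ⟨_, ⟨i, .inl ⟨j, ij, .inr (.inl rfl)⟩⟩, by simp [comp_update]⟩
  · exact ⟨_, ⟨i, .inl ⟨j, ij, .inr (.inr (.inl rfl))⟩⟩, by simp [comp_update]⟩
  · exact ⟨_, ⟨i, .inl ⟨j, ij, .inr (.inr (.inr rfl))⟩⟩, by simp [comp_update]⟩
  · exact ⟨_, ⟨i, .inr (.inl rfl)⟩, by simp [comp_update]⟩
  · obtain ⟨w, rfl⟩ := hφ w
    exact ⟨_, ⟨i, .inr (.inr ⟨w, rfl⟩)⟩, by simp [comp_update]⟩

lemma move_triv {H K : Type} [Group H] [Group K] {k : ℕ} (ψ : H →* K) {W W' : Fin k → H}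
    (h : ACMove W W') (h1 : ∀ i, ψ (W' i) = 1) : ∀ i, ψ (W i) = 1 := by
  have k : ∀ i x, W' = update W i x → ((∀ j, j ≠ i → ψ (W j) = 1) → ψ x = 1 → ψ (W i) = 1) →
      ∀ l, ψ (W l) = 1 := by
    rintro i x rfl h l
    have o : ∀ j, j ≠ i → ψ (W j) = 1 := fun j ij => by simpa [ij] using h1 j
    by_cases e : l = i
    · exact e ▸ h o (by simpa using h1 i)
    · exact o l e
  obtain ⟨i, ⟨j, ij, e | e | e | e⟩ | e | ⟨w, e⟩⟩ := h
  all_goals refine k i _ e fun o => ?_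
  · simp [o j ij]
  · simp [o j ij]
  · simp [o j ij]
  · simp [o j ij]
  · simp
  · simp [mul_eq_one_iff_eq_inv]

abbrev SL (A : Type) [CommRing A] := Matrix.SpecialLinearGroup (Fin 2) A

section
variable {A : Type} [CommRing A]

def e12 (t : A) : SL A := ⟨!![1, t; 0, 1], by simp [Matrix.det_fin_two]⟩
def e21 (t : A) : SL A := ⟨!![1, 0; t, 1], by simp [Matrix.det_fin_two]⟩
def dg (u : Aˣ) : SL A := ⟨!![u, 0; 0, ↑u⁻¹], by simp [Matrix.det_fin_two]⟩

def E (A : Type) [CommRing A] : Subgroup (SL A) := Subgroup.closure (Set.range e12 ∪ Set.range e21)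

lemma m12 (t : A) : e12 t ∈ E A := Subgroup.subset_closure (.inl ⟨t, rfl⟩)
lemma m21 (t : A) : e21 t ∈ E A := Subgroup.subset_closure (.inr ⟨t, rfl⟩)

lemma sl_ext {g h : SL A} (a : g 0 0 = h 0 0) (b : g 0 1 = h 0 1) (c : g 1 0 = h 1 0)
    (d : g 1 1 = h 1 1) : g = h := by
  ext i j
  fin_cases i <;> fin_cases j <;> assumption

lemma mul_ap (g h : SL A) (i j : Fin 2) : (g * h) i j = g i 0 * h 0 j + g i 1 * h 1 j := by
  simp [Matrix.mul_apply, Fin.sum_univ_two]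

lemma inv_ap (g : SL A) : g⁻¹ 0 0 = g 1 1 ∧ g⁻¹ 0 1 = -g 0 1 ∧ g⁻¹ 1 0 = -g 1 0 ∧ g⁻¹ 1 1 = g 0 0 := by
  simp [Matrix.adjugate_fin_two]

lemma det_ap (g : SL A) : g 0 0 * g 1 1 - g 0 1 * g 1 0 = 1 := by
  rw [← Matrix.det_fin_two]; exact g.det_coe

lemma mdg (u : Aˣ) : dg u ∈ E A := by
  have : dg u = e12 (u : A) * e21 (-((u⁻¹ : Aˣ) : A)) * e12 (u : A) *
      (e12 (-1 : A) * e21 (1 : A) * e12 (-1 : A)) := by
    refine sl_ext ?_ ?_ ?_ ?_ <;> simp only [mul_ap] <;> simp [e12, e21, dg]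
  rw [this]
  exact mul_mem (mul_mem (mul_mem (m12 _) (m21 _)) (m12 _)) (mul_mem (mul_mem (m12 _) (m21 _)) (m12 _))

def ww : SL A := e12 1 * e21 (-1) * e12 1

lemma mww : (ww : SL A) ∈ E A := mul_mem (mul_mem (m12 _) (m21 _)) (m12 _)

def lev (N : Subgroup (SL A)) (hN : ∀ g ∈ N, ∀ h ∈ E A, h * g * h⁻¹ ∈ N)
    (hA : ∀ f : A, ∃ u v : Aˣ, f = u ^ 2 - v ^ 2) : Ideal A where
  carrier := {t | e12 t ∈ N}
  add_mem' := fun {s t} a b => by
    have : e12 (s + t) = e12 s * e12 t := by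
      refine sl_ext ?_ ?_ ?_ ?_ <;> simp only [mul_ap] <;> simp [e12, add_comm]
    show e12 _ ∈ N
    rw [this]
    exact mul_mem a b
  zero_mem' := by
    have : e12 (0 : A) = 1 := by refine sl_ext ?_ ?_ ?_ ?_ <;> simp [e12]
    show e12 _ ∈ N
    rw [this]
    exact one_mem _
  smul_mem' := fun f t a => by
    obtain ⟨u, v, rfl⟩ := hA f
    have : e12 (((u : A) ^ 2 - v ^ 2) • t) =
        dg u * e12 t * (dg u)⁻¹ * (dg v * e12 t * (dg v)⁻¹)⁻¹ := by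
      refine sl_ext ?_ ?_ ?_ ?_ <;> simp only [mul_ap, inv_ap] <;> simp [e12, dg]
      ring
    show e12 _ ∈ N
    rw [this]
    exact mul_mem (hN _ a _ (mdg u)) (inv_mem (hN _ a _ (mdg v)))

variable (N : Subgroup (SL A)) (hN : ∀ g ∈ N, ∀ h ∈ E A, h * g * h⁻¹ ∈ N)
  (hA : ∀ f : A, ∃ u v : Aˣ, f = u ^ 2 - v ^ 2)

lemma lev_top (h : lev N hN hA = ⊤) : E A ≤ N := by
  have k : ∀ t, e12 t ∈ N := fun t => (h ▸ trivial : t ∈ lev N hN hA)
  refine (Subgroup.closure_le _).2 ?_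
  rintro _ (⟨t, rfl⟩ | ⟨t, rfl⟩)
  · exact k t
  · have : e21 t = ww * e12 (-t) * ww⁻¹ := by
      refine sl_ext ?_ ?_ ?_ ?_ <;> simp only [ww, mul_ap, inv_ap] <;> simp [e12, e21]
    show e21 t ∈ N
    rw [this]
    exact hN _ (k _) _ mww

lemma lev_tri {h : SL A} (hh : h ∈ N) (e : h 1 0 = 0) : h 0 0 ^ 2 - 1 ∈ lev N hN hA := by
  have d := det_ap h
  have : e12 (h 0 0 ^ 2 - 1) = h * (e12 1 * h⁻¹ * (e12 1)⁻¹) := by
    refine sl_ext ?_ ?_ ?_ ?_ <;> simp only [mul_ap, inv_ap] <;> simp [e12, e] <;> rw [e] at d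
    · linear_combination -d
    · linear_combination d
    · linear_combination -d
  show e12 _ ∈ N
  rw [this]
  exact mul_mem hh (hN _ (inv_mem hh) _ (m12 _))

lemma lev_key {g : SL A} (hg : g ∈ N) (t : A) (u : Aˣ)
    (e : (g 0 0 + t * g 1 0) * (u ^ 2 - 1) = 0) : (u : A) ^ 4 - 1 ∈ lev N hN hA := by
  have h1 := hN _ hg _ (m12 t)
  have e' : (e12 t * g * (e12 t)⁻¹) 0 0 * (u ^ 2 - 1) = 0 := by
    rw [← e]; simp only [mul_ap, inv_ap]; simp [e12]
  generalize e12 t * g * (e12 t)⁻¹ = g at h1 e'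
  have d := det_ap g
  have := lev_tri N hN hA (mul_mem (inv_mem h1) (hN _ h1 _ (mdg u⁻¹))) (by
    simp only [mul_ap, inv_ap]
    simp [dg]
    have := u.inv_mul
    linear_combination g 1 0 * e' - g 1 0 * g 0 0 * this)
  convert this using 2
  simp only [mul_ap, inv_ap]
  simp [dg]
  have := u.inv_mul
  rw [show (u : A) ^ 4 = (u ^ 2) ^ 2 by ring]
  congr 1
  linear_combination -(u : A) ^ 2 * d + g 1 1 * e' - g 1 1 * g 0 0 * this

end

section
variable {X : Type} [TopologicalSpace X]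

lemma sq_sub (f : C(X, ℝ)) : ∃ u v : C(X, ℝ)ˣ, f = u ^ 2 - v ^ 2 := by
  have un : ∀ g : C(X, ℝ), (∀ x, 0 < g x) → IsUnit g := fun g h =>
    (ContinuousMap.isUnit_iff_forall_ne_zero g).2 fun x => (h x).ne'
  obtain ⟨q, hq⟩ := un ((1 + f * f) + (1 + f * f)) fun x => by simp; nlinarith [mul_self_nonneg (f x)]
  obtain ⟨u, hu⟩ := un ((1 + f * f) ^ 2 + f) fun x => by
    simp; nlinarith [mul_self_nonneg (f x), mul_self_nonneg (f x + 1), mul_self_nonneg (f x * f x)]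
  obtain ⟨v, hv⟩ := un ((1 + f * f) ^ 2 - f) fun x => by
    simp; nlinarith [mul_self_nonneg (f x), mul_self_nonneg (f x - 1), mul_self_nonneg (f x * f x)]
  refine ⟨u * q⁻¹, v * q⁻¹, ?_⟩
  have := q.mul_inv
  simp only [Units.val_mul, hu, hv]
  rw [hq] at this
  linear_combination -f * (2 * (1 + f * f) * ↑q⁻¹ + 1) * this

variable (N : Subgroup (SL C(X, ℝ))) (hN : ∀ g ∈ N, ∀ h ∈ E C(X, ℝ), h * g * h⁻¹ ∈ N)

lemma loc {g : SL C(X, ℝ)} (hg : g ∈ N) (x : X) (hx : g 1 0 x ≠ 0) :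
    ∃ φ ∈ lev N hN sq_sub, φ x ≠ 0 := by
  have un : ∀ g : C(X, ℝ), (∀ x, 0 < g x) → IsUnit g := fun g h =>
    (ContinuousMap.isUnit_iff_forall_ne_zero g).2 fun x => (h x).ne'
  have hδ : 0 < g 1 0 x * g 1 0 x / 2 := half_pos (mul_self_pos.2 hx)
  set δ := g 1 0 x * g 1 0 x / 2 with hδ'
  obtain ⟨m, hm⟩ := un ((g 1 0 * g 1 0) ⊔ .const X δ) fun y => by simp [hδ]
  have mv : ∀ y, m.1 y = max (g 1 0 y * g 1 0 y) δ := fun y => by simp [hm]
  obtain ⟨u, hu⟩ := un (1 + (m - .const X δ)) fun y => by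
    have := le_max_right (g 1 0 y * g 1 0 y) δ
    simp [mv]
    linarith
  have z : (m - g 1 0 * g 1 0) * (m - .const X δ : C(X, ℝ)) = 0 := by
    ext y
    simp only [ContinuousMap.mul_apply, ContinuousMap.sub_apply, mv, ContinuousMap.const_apply,
      ContinuousMap.zero_apply]
    rcases max_choice (g 1 0 y * g 1 0 y) δ with e | e <;> simp [e]
  refine ⟨_, lev_key N hN sq_sub hg (-g 0 0 * g 1 0 * ↑m⁻¹) u ?_, ?_⟩
  · have := m.mul_inv
    rw [hu]
    linear_combination g 0 0 * ↑m⁻¹ * (2 + (m - .const X δ)) * z -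
      g 0 0 * ((1 + (m - .const X δ)) ^ 2 - 1) * this
  · have : 1 < u.1 x := by
      have := le_max_left (g 1 0 x * g 1 0 x) δ
      simp [hu, mv]
      linarith
    simpa [sub_eq_zero] using (one_lt_pow₀ this (by norm_num : 4 ≠ 0)).ne'

include hN in
lemma all_of [CompactSpace X] [T2Space X]
    (h : ∀ x, ∃ g ∈ N, g 1 0 x = 0 → g 0 1 x = 0 → g 0 0 x ≠ g 1 1 x) : E C(X, ℝ) ≤ N := by
  refine lev_top N hN sq_sub ?_
  have : ContinuousMap.setOfIdeal (lev N hN sq_sub) = Set.univ := Set.eq_univ_of_forall fun x => by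
    rw [ContinuousMap.mem_setOfIdeal]
    obtain ⟨g, hg, h⟩ := h x
    by_cases c : g 1 0 x = 0
    swap
    · simpa using loc N hN hg x c
    by_cases b : g 0 1 x = 0
    swap
    · simpa using loc N hN (hN _ hg _ mww) x (by
        simp only [ww, mul_ap, inv_ap]; simpa [e12, e21] using b)
    simpa using loc N hN (hN _ hg _ (m21 1)) x (by
      simp only [mul_ap, inv_ap]
      simpa [e21, b, c, add_neg_eq_zero] using h c b)
  have e := ContinuousMap.idealOfSet_ofIdeal_eq_closure (lev N hN sq_sub)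
  by_contra hn
  refine Ideal.closure_ne_top _ hn ?_
  rw [← e, this]
  ext f
  simp [ContinuousMap.mem_idealOfSet]

lemma normal_top [CompactSpace X] [T2Space X] (N : Subgroup (E C(X, ℝ))) [hn : N.Normal]
    (h : ∀ x, ∃ g ∈ N, g.1 1 0 x = 0 → g.1 0 1 x = 0 → g.1 0 0 x ≠ g.1 1 1 x) : N = ⊤ := by
  have := all_of (N.map (E C(X, ℝ)).subtype) (by
    rintro _ ⟨g, hg, rfl⟩ h hh
    exact ⟨_, hn.conj_mem g hg ⟨h, hh⟩, rfl⟩) fun x => by
      obtain ⟨g, hg, h⟩ := h x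
      exact ⟨_, ⟨g, hg, rfl⟩, h⟩
  refine top_unique fun g _ => ?_
  obtain ⟨g', hg', e⟩ := this g.2
  rwa [← Subtype.ext e]

end

section
variable {A B : Type} [CommRing A] [CommRing B] (f : A →+* B)

abbrev mp : SL A →* SL B := Matrix.SpecialLinearGroup.map f

lemma mp_ap (g : SL A) (i j : Fin 2) : mp f g i j = f (g i j) := rfl

lemma mp_surj (hf : Surjective f) : Surjective ((mp f).subgroupComap (E B)) := by
  have : E B ≤ (mp f).range := (Subgroup.closure_le _).2 (by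
    rintro _ (⟨t, rfl⟩ | ⟨t, rfl⟩) <;> obtain ⟨s, rfl⟩ := hf t
    · exact ⟨e12 s, by refine sl_ext ?_ ?_ ?_ ?_ <;> simp [mp_ap, e12]⟩
    · exact ⟨e21 s, by refine sl_ext ?_ ?_ ?_ ?_ <;> simp [mp_ap, e21]⟩)
  rintro ⟨g, hg⟩
  obtain ⟨h, rfl⟩ := this hg
  exact ⟨⟨h, hg⟩, rfl⟩

end

abbrev EE := Fin 2 → Fin 3 → ℝ
abbrev XX := Metric.sphere (0 : EE) 1
abbrev GG := E C(XX, ℝ)

def res : C(EE, ℝ) →+* C(XX, ℝ) :=
  (ContinuousMap.compRightAlgHom ℝ ℝ ⟨Subtype.val, continuous_subtype_val⟩).toRingHom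

lemma res_surj : Surjective res := fun f => f.exists_restrict_eq Metric.isClosed_sphere

abbrev HH := GG.comap (mp res)

def ψ (y : EE) : HH →* SL ℝ := (mp (ContinuousMap.evalAlgHom ℝ ℝ y).toRingHom).comp HH.subtype

def P (V : Fin 2 → GG) : Prop :=
  ∃ W : Fin 2 → HH, (mp res).subgroupComap GG ∘ W = V ∧ ∀ y, ¬ ∀ i, ψ y (W i) = 1

lemma P_inv {U V : Fin 2 → GG} (h : ACEquiv U V) (hU : P U) : P V := by
  induction h with
  | refl => exact hU
  | tail _ m ih =>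
    obtain ⟨W, rfl, hW⟩ := ih
    obtain ⟨W', m', e⟩ := move_lift _ (mp_surj res res_surj) m
    exact ⟨W', e, fun y h => hW y (move_triv _ m' h)⟩

def UU : Fin 2 → GG := ![⟨e12 1, m12 _⟩, 1]

lemma P_U : P UU := by
  have : mp res (e12 1) = e12 1 := by refine sl_ext ?_ ?_ ?_ ?_ <;> simp [mp_ap, e12]
  refine ⟨![⟨e12 1, by rw [Subgroup.mem_comap, this]; exact m12 _⟩, 1], ?_, fun y h => ?_⟩
  · funext i
    fin_cases i
    · exact Subtype.ext this
    · simp [UU]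
  · have : (1 : ℝ) = 0 := congrArg (fun g : SL ℝ => g 0 1) (h 0)
    simp at this

lemma not_P (V : Fin 2 → GG) (hV : ∀ i (p : XX), (V i).1 0 0 p = 1 + p.1 i 0 / 2 ∧
    (V i).1 0 1 p = p.1 i 1 ∧ (V i).1 1 0 p = p.1 i 2) : ¬ P V := by
  rintro ⟨W, rfl, hW⟩
  let F : EE → EE := fun y i => ![(W i).1 0 0 y - 1, (W i).1 0 1 y, (W i).1 1 0 y]
  have c : Continuous F := by
    refine continuous_pi fun i => continuous_pi fun j => ?_
    fin_cases j <;> simp [F] <;> fun_prop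
  have nz : ∀ y, F y ≠ 0 := fun y h => hW y fun i => by
    have a : (ψ y (W i)) 0 0 - 1 = 0 := congrFun (congrFun h i) 0
    have b : (ψ y (W i)) 0 1 = 0 := congrFun (congrFun h i) 1
    have c : (ψ y (W i)) 1 0 = 0 := congrFun (congrFun h i) 2
    have d := det_ap (ψ y (W i))
    rw [sub_eq_zero] at a
    rw [a, b] at d
    refine sl_ext ?_ ?_ ?_ ?_ <;> simp [a, b, c]
    simpa using d
  have od : ∀ y, ‖y‖ = 1 → F (-y) = -F y := fun y hy => by
    funext i j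
    obtain ⟨a, b, c⟩ : (W i).1 0 0 y = 1 + y i 0 / 2 ∧ (W i).1 0 1 y = y i 1 ∧
      (W i).1 1 0 y = y i 2 := hV i ⟨y, by simpa using hy⟩
    obtain ⟨a', b', c'⟩ : (W i).1 0 0 (-y) = 1 + (-y) i 0 / 2 ∧ (W i).1 0 1 (-y) = (-y) i 1 ∧
      (W i).1 1 0 (-y) = (-y) i 2 := hV i ⟨-y, by simpa using hy⟩
    fin_cases j <;> simp [F, a, b, c, a', b', c']
    ring
  obtain ⟨⟨y, t⟩, hn, hz⟩ := Pool.Agent.Lib.helper9.BorsukUlam.borsuk_ulam (E := EE × ℝ) (F := EE)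
    (.inr (by simp)) (fun x => ((1 + x.2) / 2) • F x.1 - ((1 - x.2) / 2) • F (-x.1))
    (Continuous.continuousOn (by fun_prop)) (fun x _ => by simp [sub_eq_add_neg])
  rcases max_choice ‖y‖ ‖t‖ with e | e <;> rw [Prod.norm_def, e] at hn
  · simp only [od y hn, smul_neg, sub_neg_eq_add, ← add_smul] at hz
    rw [show (1 + t) / 2 + (1 - t) / 2 = 1 by ring, one_smul] at hz
    exact nz _ hz
  · rcases eq_or_eq_neg_of_abs_eq hn with rfl | rfl
    · exact nz y (by simpa using hz)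
    · exact nz (-y) (by simpa using hz)

lemma bd (p : XX) (i : Fin 2) (j : Fin 3) : |p.1 i j| ≤ 1 := by
  have : ‖p.1‖ = 1 := by simpa using p.2
  exact (norm_le_pi_norm (p.1 i) j).trans ((norm_le_pi_norm p.1 i).trans this.le)

lemma ex_V (i : Fin 2) : ∃ g : GG, ∀ p : XX, g.1 0 0 p = 1 + p.1 i 0 / 2 ∧
    g.1 0 1 p = p.1 i 1 ∧ g.1 1 0 p = p.1 i 2 := by
  let co : Fin 3 → C(XX, ℝ) := fun j => ⟨fun p => p.1 i j,
    (continuous_apply j).comp ((continuous_apply i).comp continuous_subtype_val)⟩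
  obtain ⟨a, ha⟩ : IsUnit (1 + (1 / 2 : ℝ) • co 0) :=
    (ContinuousMap.isUnit_iff_forall_ne_zero _).2 fun p => by
      have := (abs_le.1 (bd p i 0)).1
      simp [co]
      intro h
      linarith
  refine ⟨⟨e21 (co 2 * ↑a⁻¹) * dg a * e12 (↑a⁻¹ * co 1),
    mul_mem (mul_mem (m21 _) (mdg _)) (m12 _)⟩, fun p => ?_⟩
  simp only [mul_ap]
  refine ⟨?_, ?_, ?_⟩
  · simp [e21, e12, dg, ha, co]
    ring
  · simp [e21, e12, dg, ← ContinuousMap.mul_apply, co]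
  · simp [e21, e12, dg, ← ContinuousMap.mul_apply, co]

theorem main : ∃ (G : Type) (_ : Group G) (U V : Fin 2 → G),
    Subgroup.normalClosure (Set.range U) = ⊤ ∧ Subgroup.normalClosure (Set.range V) = ⊤ ∧
    ACEquiv (Abelianization.of ∘ U) (Abelianization.of ∘ V) ∧ ¬ ACEquiv U V := by
  choose V hV using ex_V
  refine ⟨GG, inferInstance, UU, V, normal_top _ fun x => ?_, normal_top _ fun x => ?_, ?_,
    fun h => not_P V hV (P_inv h P_U)⟩
  · exact ⟨_, Subgroup.subset_normalClosure ⟨0, rfl⟩, fun _ h => by simp [UU, e12] at h⟩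
  · obtain ⟨i, hi⟩ : ∃ i, x.1 i ≠ 0 := by
      by_contra! h
      have : x.1 = 0 := funext h
      simpa [this] using x.2
    refine ⟨_, Subgroup.subset_normalClosure ⟨i, rfl⟩, fun c b e => hi ?_⟩
    obtain ⟨a', b', c'⟩ := hV i x
    have d : (V i).1 0 0 x * (V i).1 1 1 x - (V i).1 0 1 x * (V i).1 1 0 x = 1 :=
      congrArg (fun f : C(XX, ℝ) => f x) (det_ap (V i).1)
    have := (abs_le.1 (bd x i 0)).1
    rw [← e, b, a'] at d
    funext j
    fin_cases j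
    · have : x.1 i 0 * (x.1 i 0 + 4) = 0 := by linarith
      rcases mul_eq_zero.1 this with h | h
      · exact h
      · linarith
    · exact b'.symm.trans b
    · exact c'.symm.trans c
  · have pf : commutator GG = ⊤ := normal_top _ fun x => by
      obtain ⟨u, hu⟩ : IsUnit (1 + 1 : C(XX, ℝ)) :=
        (ContinuousMap.isUnit_iff_forall_ne_zero _).2 fun p => by simp
      refine ⟨_, Subgroup.commutator_mem_commutator (g₁ := (⟨dg u, mdg u⟩ : GG))
        (g₂ := (⟨e12 1, m12 _⟩ : GG)) (Subgroup.mem_top _) (Subgroup.mem_top _), fun _ h => ?_⟩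
      simp only [commutatorElement_def, Subgroup.coe_mul, Subgroup.coe_inv, mul_ap, inv_ap] at h
      simp [dg, e12, hu] at h
      have : (u.1 * (u⁻¹).1) x = 1 := by rw [u.mul_inv]; rfl
      simp [hu] at this
      linarith
    have : (Abelianization.of ∘ UU : Fin 2 → _) = Abelianization.of ∘ V := by
      have k : ∀ g : GG, Abelianization.of g = 1 := fun g => by
        rw [← MonoidHom.mem_ker, Abelianization.ker_of, pf]; trivial
      funext i
      simp [k]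
    rw [this]
    exact .refl

end Pool.Agent.H.MP_71c9ee_al
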